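import Pool.Agent.H27.EQDS.Defs
import Pool.Agent.H27.EQDS.Conv

/-!
# Isotopic but not equivariantly isotopic equivariant slice disks (MP_d3855f_gt, Q1)

Coordinates of `R⁴`: `(p 0, p 1, p 2, p 3)`. The involution is
`rho (p 0, p 1, p 2, p 3) = (-p 0, -p 1, -p 2, p 3)`, the cone of the point reflection of `S³` with
the two fixed points `(0, 0, 0, 1)` and `(0, 0, 0, -1)`; the knot is the great circle
`K0 = S³ ∩ {p 0 = p 2 = 0}`, the unknot.

Idea: `D₁` is a disk, symmetric under `rho` and under `rhp = R⁻¹ rho R`, where `R` is the
quarter turn of the plane of `K0`, and `D₂ = R D₁`. They are isotopic by a cut-off rotation.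
An equivariant homeomorphism rel `S³` from `D₁` to `D₂` would carry coverings of the complement of
`D₁` with a lift of `rhp` to coverings with a lift of `rho`; but there is a five sheeted covering
with a lift of `rhp` such that the path from `(1,0,0,0)` to its antipode followed by the lift acts
as the permutation `(0 1)(2 3 4)`, and such that the sheets `0` and `2` lie in one component, and
there is no such covering for `rho`.

All definitions are in `Pool.Agent.H27.EQDS.Defs`.
-/

set_option autoImplicit false

open Pool.Agent.H27.EQDS

namespace Pool.Agent.Results.MP_d3855f_gt.IsotopicNotEquivariantly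

/-- The unknot `K0` is strongly negative amphichiral for the point reflection `rho`, and bounds two
smooth `rho`-invariant disks in `B⁴` that are smoothly isotopic rel `S³` but are not equivariantly
isotopic, neither smoothly nor topologically: no homeomorphism of `B⁴` that fixes `S³` pointwise
and commutes with `rho` carries one to the other. -/
theorem result : HasExample (EuclideanSpace ℝ (Fin 4)) (EuclideanSpace ℝ (Fin 2)) := main

end Pool.Agent.Results.MP_d3855f_gt.IsotopicNotEquivariantly
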